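import Pool.Agent.Helper47.ME.Goals

/-!
# ME-DII: the interior of the difference body (MP_6fb600_gt)
-/

open MeasureTheory Set Filter Topology
open scoped Pointwise
open Pool.Agent.Helper47.AQ
open Pool.Agent.Helper72.MK
open Pool.Agent.Helper47.ME

noncomputable section

namespace Pool.Agent.Helper7.ME

theorem Di_open (K : Set (Fin 3 → ℝ)) : IsOpen (Di K) := by
  have h : Di K = interior K - interior K := by
    ext z
    constructor
    · rintro ⟨x, hx, y, hy, rfl⟩
      exact Set.sub_mem_sub hx hy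
    · intro hz
      obtain ⟨x, hx, y, hy, rfl⟩ := Set.mem_sub.1 hz
      exact ⟨x, hx, y, hy, rfl⟩
  rw [h]
  exact isOpen_interior.sub_right

theorem Di_smul {K : Set (Fin 3 → ℝ)} (hK : IsBody K) {x y : Fin 3 → ℝ} (hx : x ∈ K) (hy : y ∈ K)
    {d : ℝ} (h0 : 0 ≤ d) (h1 : d < 1) : d • (x - y) ∈ Di K := by
  obtain ⟨o, ho⟩ := hK.int
  refine ⟨d • x + (1 - d) • o, ?_, d • y + (1 - d) • o, ?_, ?_⟩
  · exact hK.conv.combo_self_interior_mem_interior hx ho h0 (by linarith) (by ring)
  · exact hK.conv.combo_self_interior_mem_interior hy ho h0 (by linarith) (by ring)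
  · rw [smul_sub]; abel

theorem Di_convex {K : Set (Fin 3 → ℝ)} (hK : IsBody K) : Convex ℝ (Di K) := by
  have h : Di K = interior K - interior K := by
    ext z
    constructor
    · rintro ⟨x, hx, y, hy, rfl⟩
      exact Set.sub_mem_sub hx hy
    · intro hz
      obtain ⟨x, hx, y, hy, rfl⟩ := Set.mem_sub.1 hz
      exact ⟨x, hx, y, hy, rfl⟩
  rw [h]
  exact hK.conv.interior.sub hK.conv.interior

theorem dii : DIIStmt := by
  intro K hK
  refine ⟨Di_open K, fun x hx y hy d h0 h1 => Di_smul hK hx hy h0 h1, ?_⟩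
  intro x hx y hy hz
  obtain ⟨f, hf⟩ := geometric_hahn_banach_open_point (Di_convex hK) (Di_open K) hz
  have h00 : (0 : Fin 3 → ℝ) ∈ Di K := by
    have := Di_smul hK hx hy le_rfl (zero_lt_one)
    simpa using this
  have hpos : 0 < f (x - y) := by
    have := hf 0 h00
    simpa using this
  set s : ℝ := f (x - y) with hs
  have hrep : ∀ w : Fin 3 → ℝ, ∑ i, f (Pi.single i 1) * w i = f w := by
    intro w
    conv_rhs => rw [pi_eq_sum_univ' w]
    rw [map_sum]
    refine Finset.sum_congr rfl fun i _ => ?_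
    rw [map_smul, smul_eq_mul, mul_comm]
  have hp : ∀ w : Fin 3 → ℝ, ∑ i, (f (Pi.single i 1) / s) * w i = f w / s := by
    intro w
    rw [← hrep w, Finset.sum_div]
    refine Finset.sum_congr rfl fun i _ => ?_
    ring
  refine ⟨fun i => f (Pi.single i 1) / s, ?_, ?_⟩
  · intro u hu v hv
    have h1 : ∑ i, (f (Pi.single i 1) / s) * (u i - v i) = f (u - v) / s := hp (u - v)
    rw [h1]
    have h2 : f (u - v) ≤ s := by
      by_contra hcon
      push Not at hcon
      -- choose d = s / f (u - v)
      have hfp : 0 < f (u - v) := hpos.trans hcon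
      have := hf ((s / f (u - v)) • (u - v))
        (Di_smul hK hu hv (by positivity) (by rw [div_lt_one hfp]; exact hcon))
      rw [map_smul, smul_eq_mul, div_mul_cancel₀ _ hfp.ne'] at this
      exact lt_irrefl _ this
    rw [div_le_one hpos]
    exact h2
  · have h1 : ip (fun i => f (Pi.single i 1) / s) (x - y) = f (x - y) / s := hp (x - y)
    rw [h1, ← hs, div_self hpos.ne']

end Pool.Agent.Helper7.ME
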